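import Pool.Agent.H381R4.BP.Stubs
import Pool.Agent.H804CM.PCM

set_option autoImplicit false
open MeasureTheory Matrix Filter Topology
open scoped ENNReal BigOperators Pointwise

namespace Pool.Agent.H381BP
open Pool.Agent.H381CM

theorem SMO_W3_cont {d : ℕ} (i : ℕ) :
    Continuous (fun q : V d × V d × V d => W3 q.1 q.2.1 q.2.2 i) := by
  unfold W3
  split_ifs
  · exact continuous_fst
  · exact continuous_snd.fst
  · exact continuous_snd.snd
  · exact continuous_const

theorem SMO_lf_cont (m : ℕ) {d : ℕ} :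
    Continuous (fun q : (V d × V d × V d) × E m => lf m q.1.1 q.1.2.1 q.1.2.2 q.2) := by
  unfold lf
  refine continuous_finsetSum _ fun i _ => ?_
  have h1 : Continuous (fun q : (V d × V d × V d) × E m => q.2 i) :=
    (EuclideanSpace.proj (𝕜 := ℝ) i).continuous.comp continuous_snd
  have h2 : Continuous (fun q : (V d × V d × V d) × E m => W3 q.1.1 q.1.2.1 q.1.2.2 i.val) :=
    (SMO_W3_cont i.val).comp continuous_fst
  exact h1.smul h2

theorem SMO_meas (m : ℕ) {d : ℕ} {L : Set (V d)} (hL : MeasurableSet L) :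
    Measurable (fun q : V d × V d × V d => volume {v : E m | lf m q.1 q.2.1 q.2.2 v ∈ L}) := by
  have h : MeasurableSet {q : (V d × V d × V d) × E m | lf m q.1.1 q.1.2.1 q.1.2.2 q.2 ∈ L} :=
    (SMO_lf_cont m).measurable hL
  exact measurable_measure_prodMk_left h

/-- comparison for the smooth densities (the statement `S_SMO` with the intended parentheses) -/
def S_SMO2 : Prop := ∀ (d m : ℕ), 1 ≤ m → m ≤ 3 → ∀ (ι : Type) [Fintype ι] (u : ι → V d)
  (p : ι → Polynomial ℝ), Spans u → (∀ k, Adm (p k)) → ∀ K L B : Set (V d), MeasurableSet K →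
  MeasurableSet L → MeasurableSet B → ∀ r : ℝ≥0∞, r ≠ ⊤ →
  (∀ x y z : V d, volume {v : E m | lf m x y z v ∈ K} ≤
    volume {v : E m | lf m x y z v ∈ L} + r * volume {v : E m | lf m x y z v ∈ B}) →
  (∫⁻ x : V d, ENNReal.ofReal (gg u p x) * hh m K x) ≤
    (∫⁻ x : V d, ENNReal.ofReal (gg u p x) * hh m L x) +
      r * (∫⁻ x : V d, ENNReal.ofReal (gg u p x) * hh m B x)

/-- integrate the comparison against the lifted density -/
theorem T_SMO2 (hI : S_IDN) : S_SMO2 := by
  intro d m hm1 hm3 ι _ u p hsp hp K L B hK hL hB r hr h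
  rw [← hI d m hm1 hm3 ι u p hsp hp K hK, ← hI d m hm1 hm3 ι u p hsp hp L hL,
    ← hI d m hm1 hm3 ι u p hsp hp B hB, ← lintegral_const_mul' r _ hr, ← lintegral_add_left]
  · refine lintegral_mono fun q => ?_
    calc ENNReal.ofReal (GG u p q.1 q.2.1 q.2.2) * volume {v : E m | lf m q.1 q.2.1 q.2.2 v ∈ K}
        ≤ ENNReal.ofReal (GG u p q.1 q.2.1 q.2.2) *
          (volume {v : E m | lf m q.1 q.2.1 q.2.2 v ∈ L} +
            r * volume {v : E m | lf m q.1 q.2.1 q.2.2 v ∈ B}) := by
          gcongr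
          exact h q.1 q.2.1 q.2.2
      _ = _ := by ring
  · exact ((PCM_cont_GG u p).measurable.ennreal_ofReal).mul (SMO_meas m hL)

/-- the statement `S_SMO` as parsed (the sum stands inside the integral) is weaker -/
theorem T_SMO (hI : S_IDN) : S_SMO := by
  intro d m hm1 hm3 ι _ u p hsp hp K L B hK hL hB r hr h
  refine (T_SMO2 hI d m hm1 hm3 ι u p hsp hp K L B hK hL hB r hr h).trans ?_
  have hv : (1 : ℝ≥0∞) ≤ volume (Set.univ : Set (V d)) := by
    have h1 : volume (Set.pi Set.univ fun _ : Fin d => Set.Icc (0 : ℝ) 1) = 1 := by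
      rw [volume_pi_pi]
      simp
    rw [← h1]
    exact measure_mono (Set.subset_univ _)
  refine le_trans ?_ (le_lintegral_add _ _)
  rw [lintegral_const]
  have h3 : ∀ c : ℝ≥0∞, c ≤ c * volume (Set.univ : Set (V d)) := fun c =>
    le_mul_of_one_le_right bot_le hv
  exact add_le_add le_rfl (h3 _)

end Pool.Agent.H381BP
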